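import Mathlib

/-!
# MP_f4a429_co : the maximal minimum triple weight of an automaton

Answer to Q1: no.  For every `n` one has `ρ*(3,n) ≤ 9 n² / 32 + n + 1`.
-/

namespace Pool.Agent.Results.MP_f4a429_co.TripleWeight

open Finset Filter Topology

/-- The state reached from `x` when the word `w` is read, first letter first. -/
def act {n : ℕ} (w : List (Fin n → Fin n)) (x : Fin n) : Fin n :=
  w.foldl (fun y f => f y) x

/-- `w` is a word in the transition functions of `Om` which maps every element of `S`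
to one common state. -/
def Syncs {n : ℕ} (Om : Set (Fin n → Fin n)) (w : List (Fin n → Fin n))
    (S : Finset (Fin n)) : Prop :=
  (∀ f ∈ w, f ∈ Om) ∧ ∃ c, ∀ s ∈ S, act w s = c

/-- The weight `t(S)`: the length of a shortest word sending `S` to one state (`⊤` if there
is none). -/
noncomputable def weight {n : ℕ} (Om : Set (Fin n → Fin n)) (S : Finset (Fin n)) : ℕ∞ :=
  ⨅ w : {w : List (Fin n → Fin n) // Syncs Om w S}, (w.1.length : ℕ∞)

/-- `m(3,Om)`: the minimum of the weights of the 3-sets of states. -/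
noncomputable def minTriple {n : ℕ} (Om : Set (Fin n → Fin n)) : ℕ∞ :=
  ⨅ S : {S : Finset (Fin n) // S.card = 3}, weight Om S.1

/-- `ρ*(3,n)`: the maximum of `m(3,Om)` over all automata `Om` on `n` states having at least
one synchronizable 3-set. -/
noncomputable def rhoStar (n : ℕ) : ℕ∞ :=
  ⨆ Om : {Om : Set (Fin n → Fin n) // ∃ S : Finset (Fin n), S.card = 3 ∧ weight Om S ≠ ⊤},
    minTriple Om.1

theorem act_append {n : ℕ} (u v : List (Fin n → Fin n)) (x : Fin n) :
    act (u ++ v) x = act v (act u x) := by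
  simp [act, List.foldl_append]

theorem act_cons {n : ℕ} (a : Fin n → Fin n) (v : List (Fin n → Fin n)) (x : Fin n) :
    act (a :: v) x = act v (a x) := rfl

/-- some word over `Om` of length at most `j` merges `p` and `q` -/
def M {n : ℕ} (Om : Set (Fin n → Fin n)) (j : ℕ) (p q : Fin n) : Prop :=
  ∃ u : List (Fin n → Fin n), (∀ f ∈ u, f ∈ Om) ∧ u.length ≤ j ∧ act u p = act u q

theorem M_mono {n : ℕ} {Om : Set (Fin n → Fin n)} {i j : ℕ} (h : i ≤ j) {p q : Fin n}
    (hM : M Om i p q) : M Om j p q := by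
  obtain ⟨u, h1, h2, h3⟩ := hM
  exact ⟨u, h1, h2.trans h, h3⟩

theorem M_symm {n : ℕ} {Om : Set (Fin n → Fin n)} {i : ℕ} {p q : Fin n}
    (hM : M Om i p q) : M Om i q p := by
  obtain ⟨u, h1, h2, h3⟩ := hM
  exact ⟨u, h1, h2, h3.symm⟩

/-- every state reachable from `c` is reachable by a word of length `< n` -/
theorem reach_short {n : ℕ} (Om : Set (Fin n → Fin n)) (c d : Fin n)
    (h : ∃ u : List (Fin n → Fin n), (∀ f ∈ u, f ∈ Om) ∧ act u c = d) :
    ∃ u : List (Fin n → Fin n), (∀ f ∈ u, f ∈ Om) ∧ act u c = d ∧ u.length < n := by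
  classical
  have hex : ∃ k : ℕ, ∃ u : List (Fin n → Fin n),
      (∀ f ∈ u, f ∈ Om) ∧ act u c = d ∧ u.length = k := by
    obtain ⟨u, h1, h2⟩ := h
    exact ⟨u.length, u, h1, h2, rfl⟩
  obtain ⟨u, h1, h2, h3⟩ := Nat.find_spec hex
  have hmin : ∀ v : List (Fin n → Fin n), (∀ f ∈ v, f ∈ Om) → act v c = d →
      u.length ≤ v.length := by
    intro v hv1 hv2
    rw [h3]
    exact Nat.find_min' hex ⟨v, hv1, hv2, rfl⟩
  refine ⟨u, h1, h2, ?_⟩
  by_contra hlen
  push Not at hlen
  -- the states after the prefixes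
  have hinj : Function.Injective (fun i : Fin (u.length + 1) => act (u.take i.1) c) := by
    have key : ∀ i j : Fin (u.length + 1), i.1 < j.1 →
        act (u.take i.1) c ≠ act (u.take j.1) c := by
      intro i j hij heq
      have hle := hmin (u.take i.1 ++ u.drop j.1) (by
        intro f hf
        rw [List.mem_append] at hf
        rcases hf with hf | hf
        · exact h1 f (List.mem_of_mem_take hf)
        · exact h1 f (List.mem_of_mem_drop hf)) (by
        rw [act_append, heq, ← act_append, List.take_append_drop, h2])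
      rw [List.length_append, List.length_take, List.length_drop] at hle
      have hi := i.2
      have hj := j.2
      omega
    intro i j hij
    by_contra hne
    rcases lt_or_gt_of_ne (fun h => hne (Fin.ext h) : i.1 ≠ j.1) with h' | h'
    · exact key i j h' hij
    · exact key j i h' hij.symm
  have hcard := Fintype.card_le_of_injective _ hinj
  simp at hcard
  omega

theorem main {n : ℕ} (Om : Set (Fin n → Fin n)) (m : ℕ)
    (h1 : ∃ S : Finset (Fin n), S.card = 3 ∧ ∃ w, Syncs Om w S ∧ w.length = m)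
    (h2 : ∀ S : Finset (Fin n), S.card = 3 → ∀ w, Syncs Om w S → m ≤ w.length) :
    32 * m ≤ 9 * n ^ 2 + 32 * n + 32 := by
  classical
  by_cases hmn : m ≤ n
  · nlinarith [sq_nonneg n]
  push Not at hmn
  obtain ⟨S, hS, w, ⟨hw1, c0, hw2⟩, hwl⟩ := h1
  -- first letter
  obtain ⟨a, v, rfl⟩ : ∃ a v, w = a :: v := by
    cases w with
    | nil => simp at hwl; omega
    | cons a v => exact ⟨a, v, rfl⟩
  have haOm : a ∈ Om := hw1 a (by simp)
  have hvOm : ∀ f ∈ v, f ∈ Om := fun f hf => hw1 f (by simp [hf])
  have hvl : v.length = m - 1 := by simp at hwl; omega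
  -- `a` merges two elements of `S`
  have hninj : ¬ Set.InjOn a (S : Set (Fin n)) := by
    intro hinj
    have hc : (S.image a).card = 3 := by rw [Finset.card_image_of_injOn hinj, hS]
    have := h2 (S.image a) hc v ⟨hvOm, c0, by
      intro s hs
      obtain ⟨s', hs', rfl⟩ := Finset.mem_image.mp hs
      exact hw2 s' hs'⟩
    omega
  obtain ⟨x, hx, y, hy, hxy, hne⟩ : ∃ x ∈ S, ∃ y ∈ S, a x = a y ∧ x ≠ y := by
    unfold Set.InjOn at hninj
    push Not at hninj
    obtain ⟨x, hx, y, hy, h3, h4⟩ := hninj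
    exact ⟨x, by simpa using hx, y, by simpa using hy, h3, h4⟩
  obtain ⟨z, hz, hzx, hzy⟩ : ∃ z ∈ S, z ≠ x ∧ z ≠ y := by
    have : 1 ≤ ((S.erase x).erase y).card := by
      rw [Finset.card_erase_of_mem (Finset.mem_erase.mpr ⟨hne.symm, hy⟩),
        Finset.card_erase_of_mem hx]
      omega
    obtain ⟨z, hz⟩ := Finset.card_pos.mp this
    rw [Finset.mem_erase, Finset.mem_erase] at hz
    exact ⟨z, hz.2.2, hz.2.1, hz.1⟩
  -- triple principle: words merging `x, y, z'` are long
  have htrip : ∀ z' : Fin n, z' ≠ x → z' ≠ y → ∀ u : List (Fin n → Fin n),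
      (∀ f ∈ u, f ∈ Om) → act u (a x) = act u (a z') → m ≤ u.length + 1 := by
    intro z' hz'x hz'y u hu huz
    have hc : ({x, y, z'} : Finset (Fin n)).card = 3 := by
      rw [Finset.card_eq_three]
      exact ⟨x, y, z', hne, hz'x.symm, hz'y.symm, rfl⟩
    have := h2 {x, y, z'} hc (a :: u) ⟨by
      intro f hf
      rcases List.mem_cons.mp hf with rfl | hf
      · exact haOm
      · exact hu f hf, act u (a x), by
      intro s hs
      simp only [Finset.mem_insert, Finset.mem_singleton] at hs
      rcases hs with rfl | rfl | rfl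
      · rfl
      · rw [act_cons, ← hxy]
      · rw [act_cons, huz]⟩
    simpa using this
  set c := a x with hc_def
  -- reachable set
  set C : Finset (Fin n) := Finset.univ.filter (fun d =>
    ∃ u : List (Fin n → Fin n), (∀ f ∈ u, f ∈ Om) ∧ act u c = d) with hC
  -- far sets
  set K := m - n - 1 with hK
  have hfar : ∀ d ∈ C, n ≤ 2 * ((Finset.univ.filter (fun q => q ≠ d ∧ ¬ M Om K d q)).card + 1) := by
    intro d hd
    rw [hC, Finset.mem_filter] at hd
    obtain ⟨u, hu1, hu2, hu3⟩ := reach_short Om c d hd.2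
    -- fibres
    have hfib : ∀ b ∈ (Finset.univ.image (fun z' => act u (a z'))),
        (Finset.univ.filter (fun z' => act u (a z') = b)).card ≤ 2 := by
      intro b hb
      by_contra hcon
      push Not at hcon
      obtain ⟨T, hT1, hT2⟩ := Finset.exists_subset_card_eq (show 3 ≤ _ from hcon)
      have := h2 T hT2 (a :: u) ⟨by
        intro f hf
        rcases List.mem_cons.mp hf with rfl | hf
        · exact haOm
        · exact hu1 f hf, b, by
        intro s hs
        have := hT1 hs
        rw [Finset.mem_filter] at this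
        exact this.2⟩
      simp at this
      omega
    have hcard := Finset.card_le_mul_card_image (s := Finset.univ)
      (f := fun z' : Fin n => act u (a z')) 2 hfib
    rw [Finset.card_univ, Fintype.card_fin] at hcard
    refine hcard.trans ?_
    have hsub : Finset.univ.image (fun z' => act u (a z')) ⊆
        insert d (Finset.univ.filter (fun q => q ≠ d ∧ ¬ M Om K d q)) := by
      intro q hq
      obtain ⟨z', -, rfl⟩ := Finset.mem_image.mp hq
      rw [Finset.mem_insert]
      by_cases hqd : act u (a z') = d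
      · left; exact hqd
      · right
        rw [Finset.mem_filter]
        refine ⟨Finset.mem_univ _, hqd, ?_⟩
        rintro ⟨v', hv1, hv2, hv3⟩
        have hz'x : z' ≠ x := by
          rintro rfl
          exact hqd hu2
        have hz'y : z' ≠ y := by
          rintro rfl
          apply hqd
          rw [← hxy]
          exact hu2
        have := htrip z' hz'x hz'y (u ++ v') (by
          intro f hf
          rcases List.mem_append.mp hf with hf | hf
          · exact hu1 f hf
          · exact hv1 f hf) (by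
          rw [act_append, act_append, hu2]
          exact hv3)
        rw [List.length_append] at this
        omega
    have := Finset.card_le_card hsub
    have h3 := Finset.card_insert_le d (Finset.univ.filter (fun q => q ≠ d ∧ ¬ M Om K d q))
    omega
  -- the path pairs
  have hvz : act v c = act v (a z) := by
    have e1 := hw2 x hx
    have e2 := hw2 z hz
    rw [act_cons] at e1 e2
    rw [e1, e2]
  have hlev : ∀ j, 1 ≤ j → j ≤ m - 1 →
      M Om j (act (v.take (m - 1 - j)) c) (act (v.take (m - 1 - j)) (a z)) ∧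
      ¬ M Om (j - 1) (act (v.take (m - 1 - j)) c) (act (v.take (m - 1 - j)) (a z)) := by
    intro j hj1 hj2
    constructor
    · refine ⟨v.drop (m - 1 - j), fun f hf => hvOm f (List.mem_of_mem_drop hf), ?_, ?_⟩
      · rw [List.length_drop]; omega
      · rw [← act_append, ← act_append, List.take_append_drop, hvz]
    · rintro ⟨u, hu1, hu2, hu3⟩
      have := htrip z hzx hzy (v.take (m - 1 - j) ++ u) (by
        intro f hf
        rcases List.mem_append.mp hf with hf | hf
        · exact hvOm f (List.mem_of_mem_take hf)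
        · exact hu1 f hf) (by
        rw [act_append, act_append]
        exact hu3)
      rw [List.length_append, List.length_take] at this
      omega
  -- the ordered pairs
  set pr : Fin K × Bool → Fin n × Fin n := fun jb =>
    if jb.2 then (act (v.take (m - 1 - (jb.1.1 + 1))) c, act (v.take (m - 1 - (jb.1.1 + 1))) (a z))
    else (act (v.take (m - 1 - (jb.1.1 + 1))) (a z), act (v.take (m - 1 - (jb.1.1 + 1))) c) with hpr
  have hprM : ∀ jb : Fin K × Bool, M Om (jb.1.1 + 1) (pr jb).1 (pr jb).2 ∧
      ¬ M Om jb.1.1 (pr jb).1 (pr jb).2 := by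
    rintro ⟨j, b⟩
    have hj := j.2
    have hl := hlev (j.1 + 1) (by omega) (by omega)
    rw [hpr]
    cases b with
    | true =>
      simp only [if_true]
      exact ⟨hl.1, fun h => hl.2 (by simpa using h)⟩
    | false =>
      simp only [Bool.false_eq_true, if_false]
      exact ⟨M_symm hl.1, fun h => hl.2 (by simpa using M_symm h)⟩
  have hprinj : Function.Injective pr := by
    have key : ∀ jb jb' : Fin K × Bool, pr jb = pr jb' → ¬ (jb.1.1 < jb'.1.1) := by
      intro jb jb' he hlt
      have h3 := (hprM jb).1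
      have h4 := (hprM jb').2
      rw [← he] at h4
      exact h4 (M_mono (by omega) h3)
    rintro ⟨j, b⟩ ⟨j', b'⟩ he
    have hjj : j = j' := by
      apply Fin.ext
      have e1 := key _ _ he
      have e2 := key _ _ he.symm
      simp only at e1 e2
      omega
    subst hjj
    have hj := j.2
    have hl := hlev (j.1 + 1) (by omega) (by omega)
    have hneq : act (v.take (m - 1 - (j.1 + 1))) c ≠ act (v.take (m - 1 - (j.1 + 1))) (a z) := by
      intro h
      exact hl.2 ⟨[], by simp, by simp, by simpa [act] using h⟩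
    cases b <;> cases b' <;> simp [hpr] at he ⊢
    · exact hneq he.2
    · exact hneq he.1
  have hprmem : ∀ jb, pr jb ∈ (Finset.univ : Finset (Fin n)).offDiag \ (Cᶜ).offDiag := by
    rintro ⟨j, b⟩
    have hj := j.2
    have hl := hlev (j.1 + 1) (by omega) (by omega)
    have hneq : act (v.take (m - 1 - (j.1 + 1))) c ≠ act (v.take (m - 1 - (j.1 + 1))) (a z) := by
      intro h
      exact hl.2 ⟨[], by simp, by simp, by simpa [act] using h⟩
    have hmem : act (v.take (m - 1 - (j.1 + 1))) c ∈ C := by
      rw [hC, Finset.mem_filter]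
      exact ⟨Finset.mem_univ _, _, fun f hf => hvOm f (List.mem_of_mem_take hf), rfl⟩
    rw [Finset.mem_sdiff, Finset.mem_offDiag, Finset.mem_offDiag]
    cases b with
    | true =>
      simp only [hpr, if_true, Finset.mem_univ, true_and, Finset.mem_compl]
      exact ⟨hneq, fun h => h.1 hmem⟩
    | false =>
      simp only [hpr, Bool.false_eq_true, if_false, Finset.mem_univ, true_and, Finset.mem_compl]
      exact ⟨hneq.symm, fun h => h.2.1 hmem⟩
  -- the far ordered pairs
  set F : Finset (Fin n × Fin n) := C.biUnion (fun d =>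
    (Finset.univ.filter (fun q => q ≠ d ∧ ¬ M Om K d q)).image (fun q => (d, q))) with hF
  have hFcard : F.card = ∑ d ∈ C, (Finset.univ.filter (fun q => q ≠ d ∧ ¬ M Om K d q)).card := by
    rw [hF, Finset.card_biUnion]
    · refine Finset.sum_congr rfl fun d hd => ?_
      rw [Finset.card_image_of_injective]
      intro q q' h
      exact (Prod.mk.inj h).2
    · intro d hd d' hd' hne'
      rw [Function.onFun, Finset.disjoint_left]
      intro e he he'
      obtain ⟨q, -, rfl⟩ := Finset.mem_image.mp he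
      obtain ⟨q', -, h⟩ := Finset.mem_image.mp he'
      exact hne' (Prod.mk.inj h).1.symm
  have hFbound : C.card * n ≤ 2 * (F.card + C.card) := by
    rw [hFcard, ← smul_eq_mul, ← Finset.sum_const]
    calc ∑ _d ∈ C, n ≤ ∑ d ∈ C, 2 * ((Finset.univ.filter
          (fun q => q ≠ d ∧ ¬ M Om K d q)).card + 1) := Finset.sum_le_sum hfar
      _ = _ := by
          rw [← Finset.mul_sum, Finset.sum_add_distrib]
          simp
  have hFmem : F ⊆ (Finset.univ : Finset (Fin n)).offDiag \ (Cᶜ).offDiag := by
    intro e he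
    rw [hF, Finset.mem_biUnion] at he
    obtain ⟨d, hd, he⟩ := he
    obtain ⟨q, hq, rfl⟩ := Finset.mem_image.mp he
    rw [Finset.mem_filter] at hq
    rw [Finset.mem_sdiff, Finset.mem_offDiag, Finset.mem_offDiag]
    simp only [Finset.mem_univ, true_and, Finset.mem_compl]
    exact ⟨hq.2.1.symm, fun h => h.1 hd⟩
  have hdisj : Disjoint (Finset.univ.image pr) F := by
    rw [Finset.disjoint_left]
    intro e he he'
    obtain ⟨jb, -, rfl⟩ := Finset.mem_image.mp he
    rw [hF, Finset.mem_biUnion] at he'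
    obtain ⟨d, hd, he'⟩ := he'
    obtain ⟨q, hq, hq'⟩ := Finset.mem_image.mp he'
    rw [Finset.mem_filter] at hq
    have h3 := (hprM jb).1
    rw [← hq'] at h3
    have hj := jb.1.2
    exact hq.2.2 (M_mono (by omega) h3)
  have hcount : (Finset.univ.image pr ∪ F).card ≤
      ((Finset.univ : Finset (Fin n)).offDiag \ (Cᶜ).offDiag).card := by
    apply Finset.card_le_card
    apply Finset.union_subset _ hFmem
    intro e he
    obtain ⟨jb, -, rfl⟩ := Finset.mem_image.mp he
    exact hprmem jb
  rw [Finset.card_union_of_disjoint hdisj, Finset.card_image_of_injective _ hprinj,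
    Finset.card_univ, Fintype.card_prod, Fintype.card_fin, Fintype.card_bool,
    Finset.card_sdiff_of_subset (Finset.offDiag_mono (Finset.subset_univ _)),
    Finset.offDiag_card, Finset.offDiag_card, Finset.card_compl, Finset.card_univ,
    Fintype.card_fin] at hcount
  -- arithmetic
  have hCn : C.card ≤ n := by
    have := Finset.card_le_univ C
    simpa using this
  obtain ⟨r, hr⟩ := Nat.exists_eq_add_of_le hCn
  have hmK : m = K + n + 1 := by omega
  have hnr : n - C.card = r := by omega
  rw [hnr] at hcount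
  have hq1 : r * r - r + (K * 2 + F.card) ≤ n * n - n := by
    have : r * r - r ≤ n * n - n := by
      have hrn : r ≤ n := by omega
      rcases Nat.eq_zero_or_pos r with h0 | h0
      · subst h0; simp
      · have e1 : r * r - r = r * (r - 1) := by rw [Nat.mul_sub, Nat.mul_one]
        have e2 : n * n - n = n * (n - 1) := by rw [Nat.mul_sub, Nat.mul_one]
        rw [e1, e2]
        exact Nat.mul_le_mul hrn (by omega)
    omega
  have hq2 : r * r + (K * 2 + F.card) + n ≤ n * n + r := by
    have h1 : n ≤ n * n := Nat.le_mul_self n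
    have h2 : r ≤ r * r := Nat.le_mul_self r
    omega
  set s := C.card with hs
  have hz1 : (r : ℤ) * r + (K * 2 + F.card) + n ≤ n * n + r := by exact_mod_cast hq2
  have hz2 : (s : ℤ) * n ≤ 2 * (F.card + s) := by exact_mod_cast hFbound
  have hz3 : (n : ℤ) = s + r := by exact_mod_cast hr
  have hz4 : (m : ℤ) = K + n + 1 := by exact_mod_cast hmK
  have goal : (32 : ℤ) * m ≤ 9 * n ^ 2 + 32 * n + 32 := by
    rw [hz4]
    have hsq : 0 ≤ (3 * (n : ℤ) - 4 * s) ^ 2 := sq_nonneg _
    have hrz : (r : ℤ) = n - s := by omega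
    rw [hrz] at hz1
    nlinarith
  exact_mod_cast goal

theorem weight_lt_top {n : ℕ} {Om : Set (Fin n → Fin n)} {S : Finset (Fin n)}
    (h : weight Om S ≠ ⊤) : ∃ w, Syncs Om w S ∧ (w.length : ℕ∞) = weight Om S := by
  unfold weight at h ⊢
  have hne : Nonempty {w : List (Fin n → Fin n) // Syncs Om w S} := by
    by_contra hcon
    rw [not_nonempty_iff] at hcon
    exact h (by simp)
  obtain ⟨w, hw⟩ := ciInf_mem (fun w : {w : List (Fin n → Fin n) // Syncs Om w S} =>
    (w.1.length : ℕ∞))
  exact ⟨w.1, w.2, hw⟩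

theorem minTriple_le {n : ℕ} (Om : Set (Fin n → Fin n))
    (h : ∃ S : Finset (Fin n), S.card = 3 ∧ weight Om S ≠ ⊤) :
    32 * minTriple Om ≤ ((9 * n ^ 2 + 32 * n + 32 : ℕ) : ℕ∞) := by
  obtain ⟨S0, hS0, hS0'⟩ := h
  have hne : Nonempty {S : Finset (Fin n) // S.card = 3} := ⟨⟨S0, hS0⟩⟩
  obtain ⟨S, hS⟩ := ciInf_mem (fun S : {S : Finset (Fin n) // S.card = 3} => weight Om S.1)
  have hle : ∀ T : Finset (Fin n), T.card = 3 → minTriple Om ≤ weight Om T := by
    intro T hT
    exact iInf_le (fun S : {S : Finset (Fin n) // S.card = 3} => weight Om S.1) ⟨T, hT⟩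
  have hS' : weight Om S.1 = minTriple Om := hS
  have hSt : weight Om S.1 ≠ ⊤ := by
    rw [hS']
    intro htop
    have := hle S0 hS0
    rw [htop] at this
    exact hS0' (top_le_iff.mp this)
  obtain ⟨w, hw1, hw2⟩ := weight_lt_top hSt
  have hmain := main Om w.length ⟨S.1, S.2, w, hw1, rfl⟩ (by
    intro T hT w' hw'
    have h1 := hle T hT
    have h2 : weight Om T ≤ (w'.length : ℕ∞) :=
      iInf_le (fun w : {w : List (Fin n → Fin n) // Syncs Om w T} => (w.1.length : ℕ∞)) ⟨w', hw'⟩
    rw [← hS', ← hw2] at h1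
    exact_mod_cast h1.trans h2)
  rw [← hS', ← hw2]
  exact_mod_cast hmain

theorem rhoStar_le (n : ℕ) : 32 * rhoStar n ≤ ((9 * n ^ 2 + 32 * n + 32 : ℕ) : ℕ∞) := by
  unfold rhoStar
  rw [ENat.mul_iSup]
  exact iSup_le fun Om => minTriple_le Om.1 Om.2

theorem rhoStar_toNat_le (n : ℕ) : 32 * (rhoStar n).toNat ≤ 9 * n ^ 2 + 32 * n + 32 := by
  have h := rhoStar_le n
  have hne : rhoStar n ≠ ⊤ := by
    intro htop
    rw [htop] at h
    rw [ENat.mul_top (by norm_num)] at h
    exact absurd (top_le_iff.mp h) (ENat.natCast_ne_top _)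
  rw [← ENat.natCast_toNat hne] at h
  exact_mod_cast h

/-- **Answer to Q1: no.**  For every `n` one has `ρ*(3,n) ≤ 9 n² / 32 + n + 1` (first part; in
particular `ρ*(3,n)` is finite).  Hence `ρ*(3,n) ≤ (1/2 - 1/5) n²` for all large `n`, and
`ρ*(3,n) / n²` does not tend to `1/2`. -/
theorem result :
    (∀ n : ℕ, 32 * rhoStar n ≤ ((9 * n ^ 2 + 32 * n + 32 : ℕ) : ℕ∞)) ∧
    (∃ N : ℕ, ∀ n : ℕ, N ≤ n → ((rhoStar n).toNat : ℝ) ≤ (1 / 2 - 1 / 5) * (n : ℝ) ^ 2) ∧
    ¬ Tendsto (fun n : ℕ => ((rhoStar n).toNat : ℝ) / (n : ℝ) ^ 2) atTop (𝓝 (1 / 2)) := by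
  have h2 : ∃ N : ℕ, ∀ n : ℕ, N ≤ n →
      ((rhoStar n).toNat : ℝ) ≤ (1 / 2 - 1 / 5) * (n : ℝ) ^ 2 := by
    refine ⟨100, fun n hn => ?_⟩
    have h := rhoStar_toNat_le n
    have h' : (32 : ℝ) * (rhoStar n).toNat ≤ 9 * (n : ℝ) ^ 2 + 32 * n + 32 := by exact_mod_cast h
    have hn' : (100 : ℝ) ≤ n := by exact_mod_cast hn
    nlinarith
  refine ⟨rhoStar_le, h2, ?_⟩
  obtain ⟨N, hN⟩ := h2
  intro hT
  have hle : (1 / 2 : ℝ) ≤ 1 / 2 - 1 / 5 := by
    refine le_of_tendsto hT ?_
    filter_upwards [eventually_ge_atTop (max N 1)] with n hn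
    have h1 : N ≤ n := le_trans (le_max_left _ _) hn
    have h3 : (0 : ℝ) < (n : ℝ) ^ 2 := by
      have : (1 : ℝ) ≤ n := by exact_mod_cast le_trans (le_max_right _ _) hn
      positivity
    rw [div_le_iff₀ h3]
    exact hN n h1
  norm_num at hle

end Pool.Agent.Results.MP_f4a429_co.TripleWeight
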